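import Pool.Agent.H760.AR.Stm2

/-! # AR-E3: the factor of a twist region -/

set_option autoImplicit false

namespace Pool.Agent.H181.AR

open Finset Filter Topology MeasureTheory
open Pool.Agent.H760.AR
open Pool.Agent.Q99.KN (bb ct St LC S_LC)
open Pool.Agent.Y472.L (pI Jt HP TP mn tc)
open Pool.Agent.Q251.KN (fz Eg eg_norm)

theorem e3_sin {x : ℂ} (hx : 0 < x.im) : Complex.sin (Real.pi * x) ≠ 0 := by
  intro h
  rw [Complex.sin_eq_zero_iff] at h
  obtain ⟨k, hk⟩ := h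
  have h1 : (Real.pi * x : ℂ).im = ((k : ℂ) * Real.pi).im := by rw [hk]
  have h2 : (Real.pi * x : ℂ).im = Real.pi * x.im := by simp
  have h3 : ((k : ℂ) * Real.pi).im = 0 := by simp
  rw [h2, h3] at h1
  have := mul_pos Real.pi_pos hx
  linarith

theorem e3_lin_zero {ι : Type} [Fintype ι] (ℓ : ι → ℚ) : lin ℓ (0 : ι → ℂ) = 0 := by
  unfold lin
  simp

theorem e3_lin_cont {ι : Type} [Fintype ι] (ℓ : ι → ℚ) : Continuous (lin ℓ : (ι → ℂ) → ℂ) := by
  unfold lin
  fun_prop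

/-- exponentially small is smaller than all powers -/
theorem e3_small {a : ℝ} (ha : 0 < a) (K : ℕ) : ∀ᶠ N : ℕ in atTop,
    Real.exp (-(a * N)) ≤ (1 / a ^ K) / (N : ℝ) ^ K := by
  have h1 : Tendsto (fun N : ℕ => a * (N : ℝ)) atTop atTop :=
    tendsto_natCast_atTop_atTop.const_mul_atTop ha
  have h2 := (Real.tendsto_pow_mul_exp_neg_atTop_nhds_zero K).comp h1
  filter_upwards [h2.eventually_le_const (by norm_num : (0 : ℝ) < 1), eventually_ge_atTop 1]
    with N hN hN1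
  simp only [Function.comp] at hN
  have hN0 : (0 : ℝ) < N := by exact_mod_cast hN1
  rw [div_div, le_div_iff₀ (by positivity), ← mul_pow, mul_comm]
  exact hN

theorem tE3 : S_E3 := by
  intro hT2 hLC ι _ E κ₀ hκ g hg him
  obtain ⟨x, ℓ, hxE, hgv⟩ := hg
  have hg0 : g 0 = x := by rw [hgv, e3_lin_zero, add_zero]
  rw [hg0] at him
  have hsin : Complex.sin (Real.pi * x) ≠ 0 := e3_sin him
  obtain ⟨-, hlog, -⟩ := hT2 bb LC (fun x hx => hLC.1 x hx) (fun x hx => hLC.2.2.2.1 x hx) ι E κ₀ hκ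
    x ℓ hxE hsin
  obtain ⟨j1, j2, j3, j4, j5, j6, j7, j8, j9⟩ :=
    Pool.Agent.Y904.TA.jta ι E κ₀ ((0 : ι → ℂ), (0 : ℂ)) hκ
  obtain ⟨c0, hc0⟩ : ∃ c0 : ℂ, Complex.exp c0 = Real.pi / Complex.I * Complex.sin (Real.pi * x) := by
    refine ⟨Complex.log (Real.pi / Complex.I * Complex.sin (Real.pi * x)), Complex.exp_log ?_⟩
    have : (Real.pi : ℂ) ≠ 0 := by exact_mod_cast Real.pi_ne_zero
    exact mul_ne_zero (div_ne_zero this Complex.I_ne_zero) hsin
  obtain ⟨τ0, hτ0⟩ : ∃ τ0 : (ι → ℂ) → ℂ, ∀ v, τ0 v = c0 + Complex.log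
      (Complex.sin (Real.pi * (x + lin ℓ v)) / Complex.sin (Real.pi * x)) := ⟨_, fun _ => rfl⟩
  have hJ0 : JJ E κ₀ 0 1 τ0 := by
    have h1 := j3 0 1 _ _ (j2 c0 0) hlog
    have h2 : τ0 = fun v => c0 + Complex.log
      (Complex.sin (Real.pi * (x + lin ℓ v)) / Complex.sin (Real.pi * x)) := funext hτ0
    rw [h2]
    exact h1
  have hJz : ∀ l : ℕ, JJ E κ₀ l 0 (fun _ : ι → ℂ => (0 : ℂ)) := by
    intro l
    have h1 := j7 0 l 0 _ (j1 0 E.zero_mem)
    unfold JJ
    simpa using h1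
  -- the neighbourhood
  have hev : ∀ᶠ v in 𝓝 (0 : ι → ℂ), x.im / 2 < (g v).im := by
    have h1 : Tendsto (fun v => (x + lin ℓ v).im) (𝓝 (0 : ι → ℂ)) (𝓝 (x + lin ℓ (0 : ι → ℂ)).im) :=
      ((Complex.continuous_im.comp (continuous_const.add (e3_lin_cont ℓ))).tendsto _)
    rw [e3_lin_zero, add_zero] at h1
    filter_upwards [h1.eventually_const_lt (half_lt_self him)] with v hv
    rw [hgv]
    exact hv
  obtain ⟨B, hB⟩ : ∃ B : ℝ, ∀ᶠ v in 𝓝 (0 : ι → ℂ), ‖τ0 v‖ ≤ B := by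
    have h1 : ContinuousAt τ0 0 := by
      have h2 := hJ0.an.continuousAt
      have h3 : ContinuousAt (fun v : ι → ℂ => (v, (0 : ℂ))) 0 := by fun_prop
      exact ContinuousAt.comp (f := fun v : ι → ℂ => (v, (0 : ℂ))) (g := fun p : (ι → ℂ) × ℂ => τ0 p.1)
        h2 h3
    refine ⟨‖τ0 0‖ + 1, ?_⟩
    have h4 := h1.norm.eventually_lt_const (lt_add_one ‖τ0 0‖)
    filter_upwards [h4] with v hv
    exact hv.le
  obtain ⟨r, hr, hball⟩ := Metric.eventually_nhds_iff_ball.1 (hev.and hB)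
  have hB0 : 0 ≤ B := (norm_nonneg _).trans (hball 0 (Metric.mem_ball_self hr)).2
  have ha : 0 < Real.pi * (x.im / 2) := by positivity
  -- the main identity
  have main : ∀ K : ℕ, ∀ᶠ N : ℕ in atTop, ∀ v ∈ Metric.ball (0 : ι → ℂ) r,
      ∃ e : ℂ, ‖e‖ ≤ (3 * (1 / (Real.pi * (x.im / 2)) ^ K)) / (N : ℝ) ^ K ∧
        fz N (g v) = Complex.exp (τ0 v + e) := by
    intro K
    filter_upwards [e3_small ha K, e3_small ha 1, eventually_ge_atTop 1,
      (tendsto_natCast_atTop_atTop (R := ℝ)).eventually_ge_atTop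
        (2 * (1 / (Real.pi * (x.im / 2)) ^ 1))] with N h1 h2 hN1 h3 v hv
    have hN0 : (0 : ℝ) < N := by exact_mod_cast hN1
    obtain ⟨hv1, hv2⟩ := hball v hv
    have hE : ‖Eg N (g v)‖ ≤ Real.exp (-(Real.pi * (x.im / 2) * N)) := by
      rw [eg_norm]
      apply Real.exp_le_exp.2
      have := mul_le_mul_of_nonneg_left hv1.le (mul_nonneg Real.pi_pos.le hN0.le)
      nlinarith
    have hE2 : ‖Eg N (g v)‖ ≤ 1 / 2 := by
      refine hE.trans (h2.trans ?_)
      rw [pow_one, pow_one, div_le_iff₀ hN0]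
      rw [pow_one] at h3
      linarith
    have hne : 1 - Eg N (g v) ≠ 0 := by
      intro h
      have h4 : Eg N (g v) = 1 := by linear_combination -h
      rw [h4, norm_one] at hE2
      norm_num at hE2
    refine ⟨-2 * Complex.log (1 - Eg N (g v)), ?_, ?_⟩
    · have h4 : ‖Complex.log (1 + -Eg N (g v))‖ ≤ 3 / 2 * ‖-Eg N (g v)‖ :=
        Complex.norm_log_one_add_half_le_self (by rwa [norm_neg])
      rw [norm_neg, ← sub_eq_add_neg] at h4
      rw [norm_mul, norm_neg, Complex.norm_ofNat]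
      calc 2 * ‖Complex.log (1 - Eg N (g v))‖ ≤ 3 * ‖Eg N (g v)‖ := by linarith
        _ ≤ 3 * ((1 / (Real.pi * (x.im / 2)) ^ K) / (N : ℝ) ^ K) := by
            linarith [hE.trans h1]
        _ = _ := by rw [mul_div_assoc]
    · have hgs : Complex.sin (Real.pi * (x + lin ℓ v)) ≠ 0 := by
        rw [← hgv]
        exact e3_sin (by linarith)
      have h5 : Complex.exp (-2 * Complex.log (1 - Eg N (g v))) = ((1 - Eg N (g v)) ^ 2)⁻¹ := by
        rw [neg_mul, Complex.exp_neg, two_mul, Complex.exp_add, Complex.exp_log hne, ← pow_two]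
      rw [Complex.exp_add, h5, hτ0, Complex.exp_add, hc0, Complex.exp_log (div_ne_zero hgs hsin)]
      unfold fz
      rw [← hgv]
      field_simp
  refine ⟨fun l v => if l = 0 then τ0 v else 0, ?_, ?_⟩
  · intro l
    rcases Nat.eq_zero_or_pos l with hl | hl
    · subst hl
      simpa using hJ0
    · have hl' : l ≠ 0 := hl.ne'
      simp only [if_neg hl']
      exact hJz l
  · intro K
    rcases Nat.eq_zero_or_pos K with hK | hK
    · subst hK
      refine ⟨r, B + 3 * (1 / (Real.pi * (x.im / 2)) ^ 0), hr, ?_⟩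
      filter_upwards [main 0] with N hN v hv
      obtain ⟨e, he, hf⟩ := hN v hv
      refine ⟨τ0 v + e, ?_, ?_⟩
      · simp only [pow_zero, div_one] at he ⊢
        exact (norm_add_le _ _).trans (add_le_add (hball v hv).2 he)
      · rw [hf]
        simp
    · refine ⟨r, 3 * (1 / (Real.pi * (x.im / 2)) ^ K), hr, ?_⟩
      filter_upwards [main K] with N hN v hv
      obtain ⟨e, he, hf⟩ := hN v hv
      refine ⟨e, he, ?_⟩
      rw [hf]
      congr 1
      rw [Finset.sum_eq_single 0]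
      · simp
      · intro l _ hl
        simp [hl]
      · intro h
        exact absurd (mem_range.2 hK) h

end Pool.Agent.H181.AR

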